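import Mathlib
import Pool.Agent.Results.MP_739a3c_co.Bound

set_option autoImplicit false

namespace Pool.Agent.Results.MP_6f4934_co.BoundA

open Matrix

/-- Coefficient vector of the equation `d i + ... + d (j-1) = d j + ... + d (k-1)`
(indices start at 0). -/
def rowA (n i j k : ℕ) : Fin n → ℝ := fun t =>
  (if i ≤ t.val ∧ t.val < j then 1 else 0) - if j ≤ t.val ∧ t.val < k then 1 else 0

theorem result (m : ℕ) (i j k : Fin m → ℕ)
    (h : ∀ s, i s < j s ∧ j s < k s ∧ k s ≤ m + 1)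
    (hi : LinearIndependent ℝ fun s => rowA (m + 1) (i s) (j s) (k s))
    (d : Fin (m + 1) → ℝ) (hd : ∀ t, 0 < d t)
    (he : ∀ s, rowA (m + 1) (i s) (j s) (k s) ⬝ᵥ d = 0) (t : Fin (m + 1)) :
    ∑ u, d u ≤ 2 ^ m * d t :=
  MP_739a3c_co.Bound.result m i j j k (fun s => ⟨(h s).1, le_rfl, (h s).2⟩) hi d hd he t

end Pool.Agent.Results.MP_6f4934_co.BoundA
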